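import Pool.Agent.MP_6a4325_al.H62.Base2

/-!
Row LN: soluble groups with the property `W` over the prime field are locally polycyclic.
-/

set_option autoImplicit false

namespace Pool.Agent.MP_6a4325_al.H79

open Pool.Agent.MP_6a4325_al.H62

/-- no strictly ascending extensions inside `G` -/
def NoAsc (G : Type) [Group G] : Prop :=
  ∀ (E : Subgroup G) (σ : G) (T : Finset G), (∀ e ∈ E, σ * e * σ⁻¹ ∈ E) →
    E = Subgroup.closure (↑T ∪ (fun e => σ * e * σ⁻¹) '' (E : Set G)) →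
    ∀ e ∈ E, σ⁻¹ * e * σ ∈ E

section A

variable {G : Type} [Group G]

theorem conj_closure {S : Set G} {Y : Subgroup G} {g : G} (h : ∀ s ∈ S, g * s * g⁻¹ ∈ Y) :
    ∀ x ∈ Subgroup.closure S, g * x * g⁻¹ ∈ Y := by
  have h1 : Subgroup.closure S ≤ Y.comap (MulAut.conj g).toMonoidHom :=
    (Subgroup.closure_le _).2 fun s hs => h s hs
  exact fun x hx => h1 hx

/-- generated by the conjugates of `T` by the first powers of `σ` -/
def KK (σ : G) (T : Finset G) (n : ℕ) : Subgroup G :=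
  Subgroup.closure {x | ∃ i, i ≤ n ∧ ∃ b ∈ T, x = σ ^ i * b * (σ ^ i)⁻¹}

/-- generated by the conjugates of `T` by the nonnegative powers of `σ` -/
def EE (σ : G) (T : Finset G) : Subgroup G :=
  Subgroup.closure {x | ∃ i : ℕ, ∃ b ∈ T, x = σ ^ i * b * (σ ^ i)⁻¹}

theorem KK_mono (σ : G) (T : Finset G) {m n : ℕ} (h : m ≤ n) : KK σ T m ≤ KK σ T n :=
  Subgroup.closure_mono fun _ ⟨i, hi, hx⟩ => ⟨i, hi.trans h, hx⟩

theorem KK_fg (σ : G) (T : Finset G) (n : ℕ) : (KK σ T n).FG := by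
  refine (Subgroup.fg_iff _).2 ⟨_, rfl, ?_⟩
  refine (((Set.finite_Iic n).prod T.finite_toSet).image
    fun q : ℕ × G => σ ^ q.1 * q.2 * (σ ^ q.1)⁻¹).subset ?_
  rintro _ ⟨i, hi, b, hb, rfl⟩
  exact ⟨(i, b), ⟨hi, hb⟩, rfl⟩

theorem EE_mem {σ : G} {T : Finset G} {x : G} (hx : x ∈ EE σ T) : ∃ n, x ∈ KK σ T n := by
  induction hx using Subgroup.closure_induction with
  | mem x hx =>
    obtain ⟨i, hx⟩ := hx
    exact ⟨i, Subgroup.subset_closure ⟨i, le_rfl, hx⟩⟩
  | one => exact ⟨0, one_mem _⟩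
  | mul x y _ _ hx hy =>
    obtain ⟨m, hm⟩ := hx
    obtain ⟨n, hn⟩ := hy
    exact ⟨max m n, mul_mem (KK_mono σ T (le_max_left _ _) hm) (KK_mono σ T (le_max_right _ _) hn)⟩
  | inv x _ hx => exact hx.imp fun n hn => inv_mem hn

theorem conj_succ (σ : G) (i : ℕ) (b : G) : σ * (σ ^ i * b * (σ ^ i)⁻¹) * σ⁻¹ =
    σ ^ (i + 1) * b * (σ ^ (i + 1))⁻¹ := by
  simp only [pow_succ', mul_inv_rev, mul_assoc]

theorem conj_pred (σ : G) (i : ℕ) (b : G) : σ⁻¹ * (σ ^ (i + 1) * b * (σ ^ (i + 1))⁻¹) * σ⁻¹⁻¹ =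
    σ ^ i * b * (σ ^ i)⁻¹ := by
  simp only [pow_succ', mul_inv_rev, mul_assoc, inv_mul_cancel_left, inv_inv, inv_mul_cancel,
    mul_one]

theorem mem_EE (σ : G) {T : Finset G} (i : ℕ) {b : G} (hb : b ∈ T) :
    σ ^ i * b * (σ ^ i)⁻¹ ∈ EE σ T := Subgroup.subset_closure ⟨i, b, hb, rfl⟩

theorem mem_KK (σ : G) {T : Finset G} {i n : ℕ} (hi : i ≤ n) {b : G} (hb : b ∈ T) :
    σ ^ i * b * (σ ^ i)⁻¹ ∈ KK σ T n := Subgroup.subset_closure ⟨i, hi, b, hb, rfl⟩

theorem EE_conj (σ : G) (T : Finset G) : ∀ e ∈ EE σ T, σ * e * σ⁻¹ ∈ EE σ T := by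
  intro e he
  refine conj_closure (S := {x | ∃ i : ℕ, ∃ b ∈ T, x = σ ^ i * b * (σ ^ i)⁻¹}) ?_ e he
  rintro _ ⟨i, b, hb, rfl⟩
  rw [conj_succ]
  exact mem_EE σ _ hb

theorem EE_eq (σ : G) (T : Finset G) : EE σ T =
    Subgroup.closure (↑T ∪ (fun e => σ * e * σ⁻¹) '' (EE σ T : Set G)) := by
  apply le_antisymm
  · refine (Subgroup.closure_le _).2 ?_
    rintro _ ⟨i, b, hb, rfl⟩
    rcases i with _ | i
    · refine Subgroup.subset_closure (Or.inl ?_)
      rw [pow_zero, one_mul, inv_one, mul_one]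
      exact hb
    · exact Subgroup.subset_closure (Or.inr ⟨_, mem_EE σ i hb, conj_succ σ i b⟩)
  · refine (Subgroup.closure_le _).2 ?_
    rintro x (hx | ⟨e, he, rfl⟩)
    · have := mem_EE σ 0 hx
      rwa [pow_zero, one_mul, inv_one, mul_one] at this
    · exact EE_conj σ T e he

theorem KK_conj {σ : G} {T : Finset G} {n : ℕ} (h : ∀ b ∈ T, σ⁻¹ * b * σ ∈ KK σ T n) :
    ∀ k ∈ KK σ T n, σ⁻¹ * k * σ⁻¹⁻¹ ∈ KK σ T n := by
  intro k hk
  refine conj_closure (S := {x | ∃ i, i ≤ n ∧ ∃ b ∈ T, x = σ ^ i * b * (σ ^ i)⁻¹}) ?_ k hk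
  rintro _ ⟨i, hi, b, hb, rfl⟩
  rcases i with _ | i
  · rw [pow_zero, one_mul, inv_one, mul_one, inv_inv]
    exact h b hb
  · rw [conj_pred]
    exact mem_KK σ (Nat.le_of_succ_le hi) hb

theorem NoAsc.of_fg (hG : NoAsc G) {K : Subgroup G} (hK : K.FG) (σ : G)
    (h : ∀ k ∈ K, σ * k * σ⁻¹ ∈ K) : ∀ k ∈ K, σ⁻¹ * k * σ ∈ K := by
  obtain ⟨S, hS⟩ := hK
  refine hG K σ S h (le_antisymm ?_ ?_)
  · exact hS.ge.trans (Subgroup.closure_mono Set.subset_union_left)
  · refine (Subgroup.closure_le _).2 ?_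
    rintro x (hx | ⟨e, he, rfl⟩)
    · exact hS.le (Subgroup.subset_closure hx)
    · exact h e he

theorem exists_K (hG : NoAsc G) (σ : G) (T : Finset G) :
    ∃ K : Subgroup G, K.FG ∧ (∀ b ∈ T, b ∈ K) ∧ (∀ k ∈ K, σ * k * σ⁻¹ ∈ K) ∧
      (∀ k ∈ K, σ⁻¹ * k * σ ∈ K) ∧ ∀ N : Subgroup G, N.Normal → (∀ b ∈ T, b ∈ N) → K ≤ N := by
  have h2 := hG (EE σ T) σ T (EE_conj σ T) (EE_eq σ T)
  have h0 : ∀ b : T, ∃ n, σ⁻¹ * b * σ ∈ KK σ T n := fun b => by
    have := mem_EE σ 0 b.2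
    rw [pow_zero, one_mul, inv_one, mul_one] at this
    exact EE_mem (h2 b this)
  choose f hf using h0
  obtain ⟨n, hn⟩ := (Set.finite_range f).bddAbove
  have h3 : ∀ b ∈ T, σ⁻¹ * b * σ ∈ KK σ T n := fun b hb => by
    have h6 : f ⟨b, hb⟩ ≤ n := hn ⟨⟨b, hb⟩, rfl⟩
    exact KK_mono σ T h6 (hf ⟨b, hb⟩)
  have h4 := KK_conj h3
  have h5 := hG.of_fg (KK_fg σ T n) σ⁻¹ h4
  rw [inv_inv] at h4 h5
  refine ⟨KK σ T n, KK_fg σ T n, fun b hb => ?_, h5, h4, fun N hN h => ?_⟩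
  · have := mem_KK σ (Nat.zero_le n) hb
    rwa [pow_zero, one_mul, inv_one, mul_one] at this
  · refine (Subgroup.closure_le _).2 ?_
    rintro _ ⟨i, _, b, hb, rfl⟩
    exact hN.conj_mem b (h b hb) _

theorem fg_le_zpowers (σ : G) (X : Subgroup G) (h : X ≤ Subgroup.zpowers σ) : X.FG := by
  have h1 : (X.comap (zpowersHom G σ)).FG := H7.fg_of_comm _
  have h2 := H7.fg_map h1 (zpowersHom G σ)
  rwa [Subgroup.map_comap_eq_self (by rw [Subgroup.range_zpowersHom]; exact h)] at h2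

/-- a normal subgroup with cyclic quotient is finitely generated -/
theorem fg_of_cyc (hG : NoAsc G) (hfg : Group.FG G) (N : Subgroup G) (hN : N.Normal) (σ : G)
    (h : N ⊔ Subgroup.zpowers σ = ⊤) : N.FG := by
  classical
  obtain ⟨S, hS⟩ := hfg.out
  have h1 : ∀ s : G, ∃ y ∈ N, ∃ z ∈ Subgroup.zpowers σ, y * z = s := fun s =>
    Subgroup.mem_sup_of_normal_left.1 (h ▸ Subgroup.mem_top s)
  choose y hy z hz e using h1
  obtain ⟨K, k1, k2, k3, k4, k5⟩ := exists_K hG σ (S.image y)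
  have hKN : K ≤ N := k5 N hN fun b hb => by
    obtain ⟨s, _, rfl⟩ := Finset.mem_image.1 hb
    exact hy s
  have h2 : K ⊔ Subgroup.zpowers σ = ⊤ := by
    rw [eq_top_iff, ← hS, Subgroup.closure_le]
    intro s hs
    rw [← e s]
    exact Subgroup.mul_mem_sup (k2 _ (Finset.mem_image_of_mem y hs)) (hz s)
  have hK : K.Normal := by
    let M : Subgroup G :=
      { carrier := {g | (∀ k ∈ K, g * k * g⁻¹ ∈ K) ∧ ∀ k ∈ K, g⁻¹ * k * g ∈ K}
        mul_mem' := by
          rintro a b ⟨a1, a2⟩ ⟨b1, b2⟩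
          refine ⟨fun k hk => ?_, fun k hk => ?_⟩
          · have := a1 _ (b1 k hk)
            rwa [show a * (b * k * b⁻¹) * a⁻¹ = a * b * k * (a * b)⁻¹ by group] at this
          · have := b2 _ (a2 k hk)
            rwa [show b⁻¹ * (a⁻¹ * k * a) * b = (a * b)⁻¹ * k * (a * b) by group] at this
        one_mem' := ⟨fun k hk => by simpa using hk, fun k hk => by simpa using hk⟩
        inv_mem' := by
          rintro a ⟨a1, a2⟩
          exact ⟨fun k hk => by simpa using a2 k hk, fun k hk => by simpa using a1 k hk⟩ }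
    have h3 : K ⊔ Subgroup.zpowers σ ≤ M := sup_le
      (fun a ha => ⟨fun k hk => mul_mem (mul_mem ha hk) (inv_mem ha),
        fun k hk => mul_mem (mul_mem (inv_mem ha) hk) ha⟩)
      (Subgroup.zpowers_le.2 ⟨k3, k4⟩)
    rw [h2] at h3
    exact ⟨fun k hk g => (h3 (Subgroup.mem_top g)).1 k hk⟩
  have h4 : N = K ⊔ (N ⊓ Subgroup.zpowers σ) := by
    refine le_antisymm (fun x hx => ?_) (sup_le hKN inf_le_left)
    obtain ⟨a, ha, b, hb, rfl⟩ := Subgroup.mem_sup_of_normal_left.1 (h2 ▸ Subgroup.mem_top x)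
    exact Subgroup.mul_mem_sup ha ⟨(N.mul_mem_cancel_left (hKN ha)).1 hx, hb⟩
  rw [h4]
  exact k1.sup (fg_le_zpowers σ _ inf_le_right)

theorem fg_of_subgroupOf {N M : Subgroup G} (h : N ≤ M) (hN : (N.subgroupOf M).FG) : N.FG := by
  have h1 := H7.fg_map hN M.subtype
  rwa [Subgroup.subgroupOf_map_subtype, inf_eq_left.2 h] at h1

/-- the relative version -/
theorem fg_of_cyc' (hG : ∀ M : Subgroup G, M.FG → NoAsc M) (N : Subgroup G) (hN : N.Normal)
    (σ : G) (h : (N ⊔ Subgroup.zpowers σ).FG) : N.FG := by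
  have hσ : σ ∈ N ⊔ Subgroup.zpowers σ := Subgroup.mem_sup_right (Subgroup.mem_zpowers σ)
  refine fg_of_subgroupOf le_sup_left (fg_of_cyc (hG _ h) ((Group.fg_iff_subgroup_fg _).2 h)
    (N.subgroupOf (N ⊔ Subgroup.zpowers σ)) inferInstance ⟨σ, hσ⟩ ?_)
  rw [eq_top_iff]
  rintro ⟨x, hx⟩ _
  obtain ⟨a, ha, _, ⟨j, rfl⟩, rfl⟩ := Subgroup.mem_sup_of_normal_left.1 hx
  have e : (⟨_, hx⟩ : (N ⊔ Subgroup.zpowers σ : Subgroup G)) =
      ⟨a, Subgroup.mem_sup_left ha⟩ * (⟨σ, hσ⟩ : (N ⊔ Subgroup.zpowers σ : Subgroup G)) ^ j :=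
    Subtype.ext (by simp)
  rw [e]
  exact Subgroup.mul_mem_sup ha ⟨j, rfl⟩

theorem fg_commutator (hG : ∀ M : Subgroup G, M.FG → NoAsc M) (hfg : Group.FG G) :
    (commutator G).FG := by
  classical
  have key : ∀ T : Finset G, (commutator G ⊔ Subgroup.closure (↑T : Set G)).FG →
      (commutator G).FG := fun T => by
    induction T using Finset.induction_on with
    | empty => intro h; simpa using h
    | insert t T _ ih =>
      intro h
      refine ih (fg_of_cyc' hG _ (Subgroup.Normal.of_commutator_le _ le_sup_left) t ?_)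
      rwa [Finset.coe_insert, Set.insert_eq, Subgroup.closure_union, ← Subgroup.zpowers_eq_closure,
        sup_comm (Subgroup.zpowers t), ← sup_assoc] at h
  obtain ⟨S, hS⟩ := hfg.out
  exact key S (by rw [hS, sup_top_eq]; exact ⟨S, hS⟩)

theorem fg_of_map_of_ker {Q : Type} [Group Q] (f : G →* Q) (K : Subgroup G) (h1 : (K.map f).FG)
    (h2 : (K ⊓ f.ker).FG) : K.FG := by
  classical
  obtain ⟨S, hS⟩ := h1
  have h3 : ∀ s : S, ∃ a ∈ K, f a = s := fun s => by
    have : (s : Q) ∈ K.map f := hS ▸ Subgroup.subset_closure s.2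
    exact this
  choose g hg e using h3
  have h4 : Subgroup.closure (↑(Finset.univ.image g) : Set G) ≤ K := by
    rw [Subgroup.closure_le]
    intro x hx
    obtain ⟨s, _, rfl⟩ := Finset.mem_image.1 (Finset.mem_coe.1 hx)
    exact hg s
  have h5 : K.map f ≤ (Subgroup.closure (↑(Finset.univ.image g) : Set G)).map f := by
    rw [← hS, Subgroup.closure_le]
    intro s hs
    exact ⟨g ⟨s, hs⟩, Subgroup.subset_closure (by simp), e _⟩
  have h6 : K = Subgroup.closure (↑(Finset.univ.image g) : Set G) ⊔ (K ⊓ f.ker) := by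
    refine le_antisymm (fun x hx => ?_) (sup_le h4 inf_le_left)
    obtain ⟨c, hc, e'⟩ := h5 ⟨x, hx, rfl⟩
    rw [← mul_inv_cancel_left c x]
    refine Subgroup.mul_mem_sup hc ⟨K.mul_mem (K.inv_mem (h4 hc)) hx, ?_⟩
    change f (c⁻¹ * x) = 1
    rw [map_mul, map_inv, e', inv_mul_cancel]
  rw [h6]
  exact Subgroup.FG.sup ⟨_, rfl⟩ h2

theorem derived_commutator (n : ℕ) :
    (derivedSeries (commutator G) n).map (commutator G).subtype ≤ derivedSeries G (n + 1) := by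
  induction n with
  | zero => exact Subgroup.map_subtype_le _
  | succ n ih =>
    rw [derivedSeries_succ, Subgroup.map_commutator, derivedSeries_succ G (n + 1)]
    exact Subgroup.commutator_mono ih ih

end A

theorem all_fg (hH : SHNN) (p : ℕ) [Fact p.Prime] (n : ℕ) : ∀ (H : Type) [Group H], Group.FG H →
    W (ZMod p) H → derivedSeries H n = ⊥ → ∀ K : Subgroup H, K.FG := by
  induction n with
  | zero =>
    intro H _ _ _ h K
    have : K = ⊥ := le_bot_iff.1 (h ▸ le_top)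
    exact this ▸ Subgroup.FG.bot
  | succ n ih =>
    intro H _ hfg hW h K
    have h1 : (commutator H).FG := fg_commutator
      (fun M hM => hH p M ((Group.fg_iff_subgroup_fg _).2 hM) (hW.sub M)) hfg
    have h2 : derivedSeries (commutator H) n = ⊥ := by
      have := derived_commutator (G := H) n
      rw [h, le_bot_iff, Subgroup.map_eq_bot_iff_of_injective _ (commutator H).subtype_injective]
        at this
      exact this
    have h3 := H7.fg_map (ih (commutator H) ((Group.fg_iff_subgroup_fg _).2 h1) (hW.sub _) h2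
      (K.subgroupOf (commutator H))) (commutator H).subtype
    rw [Subgroup.subgroupOf_map_subtype, ← Abelianization.ker_of] at h3
    have h4 : Group.FG (Abelianization H) :=
      Group.fg_of_surjective (f := Abelianization.of) fun x => Quotient.exists_rep x
    exact fg_of_map_of_ker Abelianization.of K (H7.fg_of_comm _) h3

theorem ln : SHNN → PCApi → SLN := by
  intro hH _ p _ G _ hs hW H hfg K hK
  obtain ⟨n, hn⟩ := (inferInstance : Group.IsSolvable H).solvable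
  exact fg_of_subgroupOf hK
    (all_fg hH p n H ((Group.fg_iff_subgroup_fg _).2 hfg) (hW.sub H) hn (K.subgroupOf H))

end Pool.Agent.MP_6a4325_al.H79
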