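import Pool.Agent.MP_6a4325_al.H62.Spec

/-!
Row LIN: the image of a finitely generated group with the hereditary property in a matrix
representation over the algebraic numbers is abelian-by-finite.
-/

set_option autoImplicit false

namespace Pool.Agent.MP_6a4325_al.H79

open Matrix Pool.Agent.MP_6a4325_al.H62

theorem hw_of_surj {G Q : Type} [Group G] [Group Q] (f : G →* Q) (hf : Function.Surjective f)
    (h : HW G) : HW Q := by
  intro H R _ φ hφ
  exact h (H.comap f) R (φ.comp (f.subgroupComap H))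
    (hφ.comp (f.subgroupComap_surjective_of_surjective H hf))

theorem hw_sub {G : Type} [Group G] (K : Subgroup G) (h : HW G) : HW K := by
  intro H R _ φ hφ
  exact h (H.map K.subtype) R
    (φ.comp (H.equivMapOfInjective K.subtype K.subtype_injective).symm.toMonoidHom)
    (hφ.comp (H.equivMapOfInjective K.subtype K.subtype_injective).symm.surjective)

theorem hw_self {G : Type} [Group G] (h : HW G) : W ℚ G ∧ W1 G ∧ Amen G :=
  h ⊤ G (⊤ : Subgroup G).subtype (fun g => ⟨⟨g, Subgroup.mem_top g⟩, rfl⟩)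

/-- the images of the elements of some subgroup of finite index commute -/
def CV {G M : Type} [Group G] [Monoid M] (ρ : G →* M) : Prop :=
  ∃ A : Subgroup G, A.FiniteIndex ∧ ∀ a ∈ A, ∀ b ∈ A, ρ a * ρ b = ρ b * ρ a

theorem mk_eq_iff {G M : Type} [Group G] [Monoid M] (ρ : G →* M) (x y : G) :
    (QuotientGroup.mk x : G ⧸ ρ.ker) = QuotientGroup.mk y ↔ ρ x = ρ y := by
  rw [QuotientGroup.eq, MonoidHom.mem_ker]
  constructor
  · intro h
    have : ρ y = ρ x * ρ (x⁻¹ * y) := by
      rw [← map_mul, mul_inv_cancel_left]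
    rw [this, h, mul_one]
  · intro h
    rw [map_mul, ← h, ← map_mul, inv_mul_cancel, map_one]

theorem va_of_cv {G M : Type} [Group G] [Monoid M] (ρ : G →* M) (h : CV ρ) :
    VA (G ⧸ ρ.ker) := by
  obtain ⟨A, hA, hc⟩ := h
  have hs := QuotientGroup.mk'_surjective ρ.ker
  refine ⟨A.normalCore.map (QuotientGroup.mk' ρ.ker), Subgroup.Normal.map inferInstance _ hs,
    ⟨?_⟩, ?_⟩
  · intro h0
    have hd := Subgroup.index_map_dvd (H := A.normalCore) hs
    rw [h0, zero_dvd_iff] at hd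
    exact Subgroup.FiniteIndex.index_ne_zero hd
  · rintro _ ⟨a, ha, rfl⟩ _ ⟨b, hb, rfl⟩
    rw [← map_mul, ← map_mul, QuotientGroup.mk'_apply, QuotientGroup.mk'_apply, mk_eq_iff,
      map_mul, map_mul]
    exact hc a (A.normalCore_le ha) b (A.normalCore_le hb)

theorem cv_of_va {G M : Type} [Group G] [Monoid M] (ρ : G →* M) (h : VA (G ⧸ ρ.ker)) :
    CV ρ := by
  obtain ⟨A, -, hA, hc⟩ := h
  have hs := QuotientGroup.mk'_surjective ρ.ker
  refine ⟨A.comap (QuotientGroup.mk' ρ.ker), ⟨?_⟩, ?_⟩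
  · rw [Subgroup.index_comap_of_surjective _ hs]
    exact hA.index_ne_zero
  · intro a ha b hb
    have := hc _ ha _ hb
    rw [← map_mul, ← map_mul, QuotientGroup.mk'_apply, QuotientGroup.mk'_apply, mk_eq_iff,
      map_mul, map_mul] at this
    exact this

theorem cv_of_sub {G M : Type} [Group G] [Monoid M] (ρ : G →* M) (K : Subgroup G)
    [K.FiniteIndex] (h : CV (ρ.comp K.subtype)) : CV ρ := by
  obtain ⟨A, hA, hc⟩ := h
  refine ⟨A.map K.subtype, ⟨?_⟩, ?_⟩
  · rw [Subgroup.index_map_subtype]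
    exact mul_ne_zero hA.index_ne_zero Subgroup.FiniteIndex.index_ne_zero
  · rintro _ ⟨a, ha, rfl⟩ _ ⟨b, hb, rfl⟩
    exact hc a ha b hb

theorem cv_of_inj {G M M' : Type} [Group G] [Monoid M] [Monoid M'] (ρ : G →* M) (e : M →* M')
    (he : Function.Injective e) (h : CV (e.comp ρ)) : CV ρ := by
  obtain ⟨A, hA, hc⟩ := h
  refine ⟨A, hA, fun a ha b hb => he ?_⟩
  rw [map_mul, map_mul]
  exact hc a ha b hb

theorem va_of_comm {G : Type} [Group G] (h : ∀ a b : G, a * b = b * a) : VA G :=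
  ⟨⊤, inferInstance, inferInstance, fun a _ b _ => h a b⟩

/-- the abstract extension step -/
theorem cv_step (hE : SExt) {K M M1 M2 : Type} [Group K] [Monoid M] [Monoid M1] [Monoid M2]
    (hK : HW K) (ρ : K →* M) (ρ1 : K →* M1) (ρ2 : K →* M2)
    (h12 : ∀ a b, ρ1 a = 1 → ρ2 a = 1 → ρ1 b = 1 → ρ2 b = 1 → ρ a * ρ b = ρ b * ρ a)
    (h1 : CV ρ1) (h2 : CV ρ2) : CV ρ := by
  obtain ⟨A1, hA1, c1⟩ := h1
  obtain ⟨A2, hA2, c2⟩ := h2
  set A : Subgroup K := A1 ⊓ A2 with hAdef
  refine cv_of_sub ρ A (cv_of_va _ ?_)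
  set τ : A →* M := ρ.comp A.subtype with hτ
  have hs := QuotientGroup.mk'_surjective τ.ker
  set N0 : Subgroup A := (ρ1.comp A.subtype).ker ⊓ (ρ2.comp A.subtype).ker with hN0
  have hN0n : N0.Normal := Subgroup.normal_inf_normal _ _
  have hN : (N0.map (QuotientGroup.mk' τ.ker)).Normal := Subgroup.Normal.map hN0n _ hs
  refine hE (A ⧸ τ.ker) (N0.map (QuotientGroup.mk' τ.ker))
    (hw_of_surj _ hs (hw_sub A hK)) (va_of_comm ?_) (va_of_comm ?_)
  · rintro ⟨_, a, ha, rfl⟩ ⟨_, b, hb, rfl⟩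
    apply Subtype.ext
    change QuotientGroup.mk' τ.ker a * QuotientGroup.mk' τ.ker b =
      QuotientGroup.mk' τ.ker b * QuotientGroup.mk' τ.ker a
    rw [← map_mul, ← map_mul, QuotientGroup.mk'_apply, QuotientGroup.mk'_apply, mk_eq_iff,
      map_mul, map_mul]
    exact h12 a b ha.1 ha.2 hb.1 hb.2
  · intro x y
    obtain ⟨x, rfl⟩ := QuotientGroup.mk_surjective x
    obtain ⟨y, rfl⟩ := QuotientGroup.mk_surjective y
    obtain ⟨a, rfl⟩ := hs x
    obtain ⟨b, rfl⟩ := hs y
    rw [← QuotientGroup.mk_mul, ← QuotientGroup.mk_mul, QuotientGroup.eq, ← map_mul, ← map_mul,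
      ← map_inv, ← map_mul]
    refine Subgroup.mem_map_of_mem _ ⟨?_, ?_⟩
    · have := (mk_eq_iff (ρ1.comp A.subtype) (a * b) (b * a)).2 (by
        rw [map_mul, map_mul]; exact c1 a a.2.1 b b.2.1)
      exact QuotientGroup.eq.1 this
    · have := (mk_eq_iff (ρ2.comp A.subtype) (a * b) (b * a)).2 (by
        rw [map_mul, map_mul]; exact c2 a a.2.2 b b.2.2)
      exact QuotientGroup.eq.1 this

/-- the strongly irreducible case -/
theorem cv_of_sir (hI : SIrr) (hT : STor) {G : Type} [Group G] (hG : Group.FG G) (hW : HW G)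
    {n : ℕ} (ρ : G →* Matrix (Fin n) (Fin n) Qb) (hρ : SIr ρ) : CV ρ := by
  set Z : Subgroup G := (Subgroup.center (G ⧸ ρ.ker)).comap (QuotientGroup.mk' ρ.ker) with hZ
  have hmem : ∀ g, g ∈ Z ↔ ∀ x, ρ x * ρ g = ρ g * ρ x := by
    intro g
    rw [hZ, Subgroup.mem_comap, Subgroup.mem_center_iff]
    constructor
    · intro h x
      have := h (QuotientGroup.mk' ρ.ker x)
      rw [← map_mul, ← map_mul, QuotientGroup.mk'_apply, QuotientGroup.mk'_apply, mk_eq_iff,
        map_mul, map_mul] at this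
      exact this
    · intro h x
      obtain ⟨x, rfl⟩ := QuotientGroup.mk'_surjective ρ.ker x
      rw [← map_mul, ← map_mul, QuotientGroup.mk'_apply, QuotientGroup.mk'_apply, mk_eq_iff,
        map_mul, map_mul]
      exact h x
  have hZn : Z.Normal := Subgroup.Normal.comap inferInstance _
  have hs := QuotientGroup.mk'_surjective Z
  have hfin : Finite (G ⧸ Z) := by
    refine hT (G ⧸ Z) (Group.fg_of_surjective hs) (hw_self (hw_of_surj _ hs hW)).2.1 ?_
    intro x
    obtain ⟨g, rfl⟩ := hs x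
    obtain ⟨m, c, hm, hc⟩ := hI G hG (hw_self hW).2.2 n ρ hρ g
    refine isOfFinOrder_iff_pow_eq_one.2 ⟨m, hm, ?_⟩
    rw [← map_pow, QuotientGroup.mk'_apply, QuotientGroup.eq_one_iff, hmem]
    intro x
    rw [hc, Matrix.mul_smul, Matrix.smul_mul, mul_one, one_mul]
  refine ⟨Z, Subgroup.finiteIndex_of_finite_quotient, fun a _ b hb => (hmem b).1 hb a⟩

/-- matrices of a representation on an abstract space -/
theorem cv_of_rep {G V : Type} [Group G] [AddCommGroup V] [Module Qb V] [Module.Finite Qb V]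
    (h : ∀ ρ : G →* Matrix (Fin (Module.finrank Qb V)) (Fin (Module.finrank Qb V)) Qb, CV ρ)
    (τ : G →* Module.End Qb V) : CV τ :=
  cv_of_inj τ (LinearMap.toMatrixAlgEquiv (Module.finBasis Qb V)).toMulEquiv.toMonoidHom
    (LinearMap.toMatrixAlgEquiv (Module.finBasis Qb V)).injective (h _)

theorem cv_all (hI : SIrr) (hT : STor) (hE : SExt) (n : ℕ) :
    ∀ (G : Type) [Group G], Group.FG G → HW G → ∀ ρ : G →* Matrix (Fin n) (Fin n) Qb, CV ρ := by
  induction n using Nat.strong_induction_on with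
  | _ n ih =>
  intro G _ hG hW ρ
  by_cases hρ : SIr ρ
  · exact cv_of_sir hI hT hG hW ρ hρ
  unfold SIr at hρ
  push Not at hρ
  obtain ⟨K, hK, U, hU, hb, ht⟩ := hρ
  refine cv_of_sub ρ K ?_
  have hKfg : Group.FG K := Subgroup.fg_of_index_ne_zero K
  have hKW : HW K := hw_sub K hW
  let e : Matrix (Fin n) (Fin n) Qb →* Module.End Qb (Fin n → Qb) :=
    (Matrix.toLinAlgEquiv' (R := Qb) (n := Fin n)).toMulEquiv.toMonoidHom
  have he : Function.Injective e := (Matrix.toLinAlgEquiv' (R := Qb) (n := Fin n)).injective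
  refine cv_of_inj _ e he ?_
  let τ : Representation Qb K (Fin n → Qb) := e.comp (ρ.comp K.subtype)
  have hτ : ∀ g : K, U ≤ U.comap (τ g) := fun g u hu => hU g g.2 u hu
  have hsum := Submodule.finrank_quotient_add_finrank U
  rw [Module.finrank_fin_fun] at hsum
  have hlt : Module.finrank Qb U < n := by
    have := Submodule.finrank_lt ht
    rwa [Module.finrank_fin_fun] at this
  have hpos : Module.finrank Qb U ≠ 0 := fun h0 => hb (Submodule.finrank_eq_zero.1 h0)
  have hlt' : Module.finrank Qb ((Fin n → Qb) ⧸ U) < n := by omega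
  refine cv_step hE hKW τ (τ.subrepresentation U hτ) (τ.quotient U hτ) ?_
    (cv_of_rep (ih _ hlt K hKfg hKW) _) (cv_of_rep (ih _ hlt' K hKfg hKW) _)
  have k1 : ∀ a, τ.subrepresentation U hτ a = 1 → ∀ u ∈ U, τ a u = u := by
    intro a ha u hu
    have := congrArg Subtype.val (LinearMap.congr_fun ha ⟨u, hu⟩)
    exact this
  have k2 : ∀ a, τ.quotient U hτ a = 1 → ∀ v, τ a v - v ∈ U := by
    intro a ha v
    have := LinearMap.congr_fun ha (Submodule.Quotient.mk v)
    exact (Submodule.Quotient.eq U).1 this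
  intro a b ha1 ha2 hb1 hb2
  refine LinearMap.ext fun v => ?_
  have e1 := k1 a ha1 _ (k2 b hb2 v)
  have e2 := k1 b hb1 _ (k2 a ha2 v)
  rw [map_sub] at e1 e2
  change τ a (τ b v) = τ b (τ a v)
  rw [sub_eq_iff_eq_add] at e1 e2
  rw [e1, e2]
  abel

theorem lin : SIrr → STor → SExt → SLin := by
  intro hI hT hE G _ hG hW n ρ
  exact va_of_cv ρ (cv_all hI hT hE n G hG hW ρ)

end Pool.Agent.MP_6a4325_al.H79
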