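import Pool.Agent.MP_6a4325_al.H62.Base2

/-!
Row AL1: abelian normal subgroups of finite rank.
-/

set_option autoImplicit false

namespace Pool.Agent.MP_6a4325_al.H79

open Pool.Agent.MP_6a4325_al.H62

section Ab

variable {A Q : Type} [CommGroup A] [CommGroup Q] {p : ℕ}

theorem pow_pow_eq_one (hp : ∀ x : Q, x ^ p = 1 → x = 1) {x : Q} {j : ℕ} (h : x ^ p ^ j = 1) :
    x = 1 := by
  induction j with
  | zero => simpa using h
  | succ j ih => exact ih (hp _ (by rw [← pow_mul, ← pow_succ, h]))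

/-- the torsion of a finitely generated abelian group has finite exponent -/
theorem exists_exponent (F : Subgroup Q) (hF : F.FG) :
    ∃ e : ℕ, 0 < e ∧ ∀ x ∈ F, IsOfFinOrder x → x ^ e = 1 := by
  have h1 : Group.FG F := (Group.fg_iff_subgroup_fg _).2 hF
  have h2 : Group.FG (CommGroup.torsion F) :=
    (Group.fg_iff_subgroup_fg _).2 (H7.fg_of_comm (CommGroup.torsion F))
  have h3 : Finite (CommGroup.torsion F) :=
    CommGroup.finite_of_fg_isMulTorsion _ fun x => by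
      obtain ⟨n, hn, e⟩ := isOfFinOrder_iff_pow_eq_one.1 x.2
      exact isOfFinOrder_iff_pow_eq_one.2 ⟨n, hn, Subtype.ext e⟩
  refine ⟨Nat.card (CommGroup.torsion F), Nat.card_pos, fun x hx h => ?_⟩
  obtain ⟨n, hn, e⟩ := isOfFinOrder_iff_pow_eq_one.1 h
  have h4 : (⟨x, hx⟩ : F) ∈ CommGroup.torsion F :=
    isOfFinOrder_iff_pow_eq_one.2 ⟨n, hn, Subtype.ext e⟩
  have h5 := pow_card_eq_one' (x := (⟨⟨x, hx⟩, h4⟩ : CommGroup.torsion F))
  exact congrArg (fun y : CommGroup.torsion F => ((y : F) : Q)) h5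

/-- generators modulo the kernel, up to `p`-th roots -/
theorem gen_mod_ker (Φ : A →* Q) (F : Subgroup Q) (hF : F.FG)
    (h : ∀ a, ∃ j : ℕ, Φ a ^ p ^ j ∈ F) :
    ∃ T : Finset A, ∀ a, ∃ j : ℕ, a ^ p ^ j ∈ Subgroup.closure (↑T : Set A) ⊔ Φ.ker := by
  classical
  have h1 : Group.FG F := (Group.fg_iff_subgroup_fg _).2 hF
  have h2 : ((Φ.range.subgroupOf F).map F.subtype).FG :=
    H7.fg_map (H7.fg_of_comm (Φ.range.subgroupOf F)) _
  rw [Subgroup.subgroupOf_map_subtype] at h2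
  obtain ⟨S, hS⟩ := h2
  have h3 : ∀ s : S, ∃ a, Φ a = s := fun s => by
    have : (s : Q) ∈ Φ.range ⊓ F := hS ▸ Subgroup.subset_closure s.2
    exact this.1
  choose f hf using h3
  refine ⟨Finset.univ.image f, fun a => ?_⟩
  obtain ⟨j, hj⟩ := h a
  refine ⟨j, ?_⟩
  have h4 : Φ (a ^ p ^ j) ∈ Φ.range ⊓ F := ⟨⟨_, rfl⟩, by rw [map_pow]; exact hj⟩
  have h5 : Φ.range ⊓ F ≤ (Subgroup.closure (↑(Finset.univ.image f) : Set A)).map Φ := by
    rw [← hS, Subgroup.closure_le]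
    intro s hs
    exact ⟨f ⟨s, hs⟩, Subgroup.subset_closure (by simp), hf _⟩
  obtain ⟨c, hc, e⟩ := h5 h4
  refine Subgroup.mem_sup.2 ⟨c, hc, c⁻¹ * a ^ p ^ j, ?_, by simp⟩
  rw [MonoidHom.mem_ker, map_mul, map_inv, e, inv_mul_cancel]

/-- the torsion modulo the kernel has finite exponent prime to `p` -/
theorem exp_mod_ker [hp : Fact p.Prime] (hq : ∀ x : Q, x ^ p = 1 → x = 1) (Φ : A →* Q)
    (F : Subgroup Q) (hF : F.FG) (h : ∀ a, ∃ j : ℕ, Φ a ^ p ^ j ∈ F) :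
    ∃ e : ℕ, 0 < e ∧ e.Coprime p ∧ ∀ a, ∀ m : ℕ, 0 < m → a ^ m ∈ Φ.ker → a ^ e ∈ Φ.ker := by
  obtain ⟨e0, he0, h0⟩ := exists_exponent F hF
  obtain ⟨i, e, h1, h2⟩ := Nat.exists_eq_pow_mul_and_not_dvd he0.ne' p hp.out.ne_one
  refine ⟨e, Nat.pos_of_ne_zero fun e' => h1 (by simp [e']),
    ((Nat.Prime.coprime_iff_not_dvd hp.out).2 h1).symm, fun a m hm ha => ?_⟩
  obtain ⟨j, hj⟩ := h a
  rw [MonoidHom.mem_ker, map_pow] at ha ⊢
  have h3 := h0 _ hj ((isOfFinOrder_iff_pow_eq_one.2 ⟨m, hm, ha⟩).pow)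
  refine pow_pow_eq_one hq (j := j + i) ?_
  rw [← h3, h2, ← pow_mul, ← pow_mul, pow_add]
  congr 1
  ring

/-- the elements with a `p`-power in `X` -/
def isol (p : ℕ) (X : Subgroup A) : Subgroup A where
  carrier := {a | ∃ j : ℕ, a ^ p ^ j ∈ X}
  mul_mem' := by
    rintro a b ⟨i, hi⟩ ⟨j, hj⟩
    refine ⟨i + j, ?_⟩
    rw [mul_pow]
    refine X.mul_mem ?_ ?_
    · rw [pow_add, pow_mul]; exact X.pow_mem hi _
    · rw [pow_add, mul_comm (p ^ i), pow_mul]; exact X.pow_mem hj _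
  one_mem' := ⟨0, by simp⟩
  inv_mem' := by
    rintro a ⟨j, hj⟩
    exact ⟨j, by rw [inv_pow]; exact X.inv_mem hj⟩

theorem mem_isol {X : Subgroup A} {a : A} : a ∈ isol p X ↔ ∃ j : ℕ, a ^ p ^ j ∈ X := Iff.rfl

theorem isol_root {X : Subgroup A} {a : A} {i : ℕ} (h : a ^ p ^ i ∈ isol p X) :
    a ∈ isol p X := by
  obtain ⟨j, hj⟩ := h
  exact ⟨i + j, by rw [pow_add, pow_mul]; exact hj⟩

/-- `n`-th powers times `Z` -/
def pz (n : ℕ) (Z : Subgroup A) : Subgroup A := (powMonoidHom n : A →* A).range ⊔ Z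

theorem mem_pz {n : ℕ} {Z : Subgroup A} {b : A} :
    b ∈ pz n Z ↔ ∃ a, ∃ z ∈ Z, b = a ^ n * z := by
  unfold pz
  rw [Subgroup.mem_sup]
  constructor
  · rintro ⟨_, ⟨a, rfl⟩, z, hz, rfl⟩
    exact ⟨a, z, hz, rfl⟩
  · rintro ⟨a, z, hz, rfl⟩
    exact ⟨_, ⟨a, rfl⟩, z, hz, rfl⟩

theorem pow_mem_pz (n : ℕ) (Z : Subgroup A) (a : A) : a ^ n ∈ pz n Z :=
  mem_pz.2 ⟨a, 1, Z.one_mem, (mul_one _).symm⟩

theorem le_pz (n : ℕ) (Z : Subgroup A) : Z ≤ pz n Z := le_sup_right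

theorem index_pz {n : ℕ} (hn : 0 < n) (hc : n.Coprime p) (Z : Subgroup A) (T : Finset A)
    (hT : ∀ a, ∃ j : ℕ, a ^ p ^ j ∈ Subgroup.closure (↑T : Set A) ⊔ Z) : (pz n Z).index ≠ 0 := by
  let f := QuotientGroup.mk' (pz n Z)
  have h1 : ∀ x : A ⧸ pz n Z, x ^ n = 1 := fun x => by
    obtain ⟨a, rfl⟩ := QuotientGroup.mk'_surjective (pz n Z) x
    rw [← map_pow]
    exact (QuotientGroup.eq_one_iff _).2 (pow_mem_pz n Z a)
  have h2 : (Subgroup.closure (↑T : Set A)).map f = ⊤ := by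
    rw [eq_top_iff]
    intro x _
    obtain ⟨a, rfl⟩ := QuotientGroup.mk'_surjective (pz n Z) x
    obtain ⟨j, hj⟩ := hT a
    obtain ⟨c, hc', z, hz, e⟩ := Subgroup.mem_sup.1 hj
    have h3 : f a ^ p ^ j ∈ (Subgroup.closure (↑T : Set A)).map f := by
      refine ⟨c, hc', ?_⟩
      have h4 : f z = 1 := (QuotientGroup.eq_one_iff _).2 (le_pz n Z hz)
      rw [← map_pow, ← e, map_mul, h4, mul_one]
    have h5 : f a ∈ Subgroup.zpowers (f a ^ p ^ j) := by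
      rw [mem_zpowers_pow_iff]
      exact ((hc.coprime_dvd_left (orderOf_dvd_of_pow_eq_one (h1 (f a)))).pow_right j).symm
    exact (Subgroup.zpowers_le.2 h3) h5
  have h3 : Group.FG (A ⧸ pz n Z) := ⟨h2 ▸ H7.fg_map ⟨T, rfl⟩ f⟩
  have h4 : Finite (A ⧸ pz n Z) := CommGroup.finite_of_fg_isMulTorsion _ fun x =>
    isOfFinOrder_iff_pow_eq_one.2 ⟨n, hn, h1 x⟩
  exact Subgroup.index_ne_zero_of_finite

theorem gen_pz [DecidableEq A] {n : ℕ} {Z : Subgroup A} {T : Finset A}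
    (hT : ∀ a, ∃ j : ℕ, a ^ p ^ j ∈ Subgroup.closure (↑T : Set A) ⊔ Z) {b : A} (hb : b ∈ pz n Z) :
    ∃ j : ℕ, b ^ p ^ j ∈ Subgroup.closure (↑(T.image fun t => t ^ n) : Set A) ⊔ Z := by
  obtain ⟨a, z, hz, rfl⟩ := mem_pz.1 hb
  obtain ⟨j, hj⟩ := hT a
  obtain ⟨c, hc, z', hz', e⟩ := Subgroup.mem_sup.1 hj
  refine ⟨j, Subgroup.mem_sup.2 ⟨c ^ n, ?_, z' ^ n * z ^ p ^ j,
    Z.mul_mem (Z.pow_mem hz' _) (Z.pow_mem hz _), ?_⟩⟩
  · have h1 : (powMonoidHom n : A →* A) c ∈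
        (Subgroup.closure (↑T : Set A)).map (powMonoidHom n) := ⟨c, hc, rfl⟩
    rw [MonoidHom.map_closure] at h1
    rw [Finset.coe_image]
    exact h1
  · rw [← mul_assoc, ← mul_pow, e, mul_pow, ← pow_mul, ← pow_mul, mul_comm n]

end Ab

section Act

variable {G A : Type} [Group G] [CommGroup A] (c : G →* MulAut A)

/-- the commutator map of `g` -/
def kap (g : G) : A →* A where
  toFun a := c g a * a⁻¹
  map_one' := by simp
  map_mul' a b := by rw [map_mul, mul_inv, mul_mul_mul_comm]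

theorem kap_apply (g : G) (a : A) : kap c g a = c g a * a⁻¹ := rfl

theorem kap_eq_one {g : G} {a : A} : kap c g a = 1 ↔ c g a = a := mul_inv_eq_one

theorem kap_mul (g h : G) (a : A) : kap c (g * h) a = c g (kap c h a) * kap c g a := by
  rw [kap_apply, kap_apply, kap_apply, map_mul c, MulAut.mul_apply, map_mul, map_inv, mul_assoc,
    inv_mul_cancel_left]

theorem kap_inv (g : G) (a : A) : kap c g⁻¹ a = (kap c g (c g⁻¹ a))⁻¹ := by
  rw [kap_apply, kap_apply, ← MulAut.mul_apply, ← map_mul, mul_inv_cancel, map_one, MulAut.one_apply,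
    mul_inv, inv_inv, mul_comm]

/-- the elements fixed by `N` -/
def fixd (N : Subgroup G) : Subgroup A where
  carrier := {a | ∀ g ∈ N, c g a = a}
  mul_mem' := fun {a b} ha hb g hg => by rw [map_mul, ha g hg, hb g hg]
  one_mem' := fun g _ => map_one _
  inv_mem' := fun {a} ha g hg => by rw [map_inv, ha g hg]

theorem mem_fixd {N : Subgroup G} {a : A} : a ∈ fixd c N ↔ ∀ g ∈ N, c g a = a := Iff.rfl

/-- the elements of `N` acting trivially on the `e`-th powers modulo the fixed points -/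
def uni (N : Subgroup G) (e : ℕ) : Subgroup G where
  carrier := {g | g ∈ N ∧ ∀ a, kap c g a ^ e ∈ fixd c N}
  mul_mem' := by
    rintro g h ⟨hg, hg'⟩ ⟨hh, hh'⟩
    refine ⟨N.mul_mem hg hh, fun a => ?_⟩
    rw [kap_mul, mul_pow, ← map_pow, hh' a g hg]
    exact mul_mem (hh' a) (hg' a)
  one_mem' := ⟨N.one_mem, fun a => by
    rw [(kap_eq_one c).2 (by rw [map_one]; rfl), one_pow]; exact one_mem _⟩
  inv_mem' := by
    rintro g ⟨hg, hg'⟩
    refine ⟨N.inv_mem hg, fun a => ?_⟩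
    rw [kap_inv, inv_pow]
    exact inv_mem (hg' _)

theorem mem_uni {N : Subgroup G} {e : ℕ} {g : G} :
    g ∈ uni c N e ↔ g ∈ N ∧ ∀ a, kap c g a ^ e ∈ fixd c N := Iff.rfl

/-- the commutator with a fixed `e`-th power is a homomorphism -/
def bet (N : Subgroup G) (e : ℕ) (a : A) : uni c N e →* A where
  toFun g := kap c g a ^ e
  map_one' := by rw [(kap_eq_one c).2 (by rw [OneMemClass.coe_one, map_one]; rfl), one_pow]
  map_mul' g h := by
    rw [Subgroup.coe_mul, kap_mul, mul_pow, ← map_pow, h.2.2 a g g.2.1, mul_comm]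

theorem bet_apply (N : Subgroup G) (e : ℕ) (a : A) (g : uni c N e) :
    bet c N e a g = kap c g a ^ e := rfl

/-- the elements of `U` fixing `a` -/
def stab (U : Subgroup G) (a : A) : Subgroup G where
  carrier := {g | g ∈ U ∧ c g a = a}
  mul_mem' := by
    rintro g h ⟨hg, hg'⟩ ⟨hh, hh'⟩
    exact ⟨U.mul_mem hg hh, by rw [map_mul, MulAut.mul_apply, hh', hg']⟩
  one_mem' := ⟨U.one_mem, by rw [map_one]; rfl⟩
  inv_mem' := by
    rintro g ⟨hg, hg'⟩
    refine ⟨U.inv_mem hg, ?_⟩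
    conv_lhs => rw [← hg']
    rw [← MulAut.mul_apply, ← map_mul, inv_mul_cancel, map_one, MulAut.one_apply]

theorem mem_stab {U : Subgroup G} {a : A} {g : G} : g ∈ stab c U a ↔ g ∈ U ∧ c g a = a := Iff.rfl

/-- characters take finitely many values on the commutators -/
theorem finite_image {k : Type} [Field k] (N : Subgroup G) (e : ℕ) (ψ : A →* kˣ) (N' : Subgroup G)
    (hN' : N'.FiniteIndex) (h : ∀ g ∈ N', ∀ a, ψ (c g a) = ψ a) :
    (ψ '' (Subgroup.closure {x | ∃ a g, x = bet c N e a g} : Subgroup A)).Finite := by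
  have hr : N'.normalCore.index ≠ 0 := Subgroup.FiniteIndex.index_ne_zero
  have : NeZero N'.normalCore.index := ⟨hr⟩
  have hfin : (rootsOfUnity N'.normalCore.index k : Set kˣ).Finite :=
    Set.finite_coe_iff.1 (inferInstanceAs (Finite (rootsOfUnity N'.normalCore.index k)))
  refine hfin.subset ?_
  rintro _ ⟨x, hx, rfl⟩
  have h1 : Subgroup.closure {x | ∃ a g, x = bet c N e a g} ≤
      (rootsOfUnity N'.normalCore.index k).comap ψ := by
    rw [Subgroup.closure_le]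
    rintro _ ⟨a, g, rfl⟩
    change ψ (bet c N e a g) ∈ rootsOfUnity N'.normalCore.index k
    rw [mem_rootsOfUnity, ← map_pow, ← map_pow, bet_apply, map_pow, kap_apply, map_mul, map_inv,
      Subgroup.coe_pow, h _ (N'.normalCore_le (N'.normalCore.pow_index_mem (g : G))), mul_inv_cancel, one_pow]
  exact h1 hx

theorem core {p : ℕ} [hp : Fact p.Prime] (hch : ChApi p (Kp p)) (hs : SerApi p)
    (N : Subgroup G) (T : Finset G) (hT : ∀ t ∈ T, t ∈ N) (hq : ∀ a : A, a ^ p = 1 → a = 1)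
    (T1 : Finset A) (h1 : ∀ a, ∃ m : ℕ, 0 < m ∧ a ^ m ∈ Subgroup.closure (↑T1 : Set A))
    (hsm : ∀ t ∈ T, ∃ S : Finset A, ∀ a, ∃ j : ℕ,
      kap c t a ^ p ^ j ∈ Subgroup.closure (↑S : Set A))
    (hz : ∀ a, (∀ t ∈ T, c t a = a) → ∀ g ∈ N, c g a = a)
    (horb : ∀ ψ : A →* (Kp p)ˣ, ∃ N' : Subgroup G, N'.FiniteIndex ∧
      ∀ g ∈ N', ∀ a, ψ (c g a) = ψ a) :
    ∃ (A₀ : Subgroup A) (U : Subgroup G), U ≤ N ∧ (∀ g ∈ N, (∀ a, c g a = a) → g ∈ U) ∧
      A₀.index ≠ 0 ∧ (∀ g ∈ N, ∀ a ∈ A₀, c g a ∈ A₀) ∧ fixd c N ≤ A₀ ∧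
      (∀ b ∈ A₀, ∀ m : ℕ, 0 < m → b ^ m ∈ fixd c N → b ∈ fixd c N) ∧
      (∃ T' : Finset A, (∀ t ∈ T', t ∈ A₀) ∧
        ∀ b ∈ A₀, ∃ j : ℕ, b ^ p ^ j ∈ Subgroup.closure (↑T' : Set A) ⊔ fixd c N) ∧
      (∀ g ∈ N, g ∈ U ↔ ∀ b ∈ A₀, kap c g b ∈ fixd c N) ∧
      ∀ H : Subgroup G, (∀ g, g ∈ H ↔ g ∈ U ∧ ∀ b ∈ A₀, c g b = b) → Ser p H U := by
  classical
  choose S hS using hsm
  let Φ : A →* (T → A) := MonoidHom.pi fun t => kap c t
  let F : Subgroup (T → A) := Subgroup.pi Set.univ fun t => Subgroup.closure (↑(S t t.2) : Set A)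
  have hF : F.FG := Subgroup.FG.pi fun t => ⟨S t t.2, rfl⟩
  have hΦ : ∀ a, ∃ j : ℕ, Φ a ^ p ^ j ∈ F := fun a => by
    choose j hj using fun t : T => hS t t.2 a
    refine ⟨∑ t, j t, fun t _ => ?_⟩
    obtain ⟨i, hi⟩ := Nat.exists_eq_add_of_le
      (Finset.single_le_sum (f := j) (fun _ _ => Nat.zero_le _) (Finset.mem_univ t))
    change kap c t a ^ p ^ (∑ t, j t) ∈ _
    rw [hi, pow_add, pow_mul]
    exact pow_mem (hj t) _
  have hker : Φ.ker = fixd c N := by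
    ext a
    rw [MonoidHom.mem_ker, mem_fixd]
    constructor
    · intro h
      exact hz a fun t ht => (kap_eq_one c).1 (congrFun h ⟨t, ht⟩)
    · intro h
      funext t
      exact (kap_eq_one c).2 (h t (hT t t.2))
  have hq' : ∀ x : T → A, x ^ p = 1 → x = 1 := fun x hx => funext fun t => hq _ (congrFun hx t)
  obtain ⟨T0, hT0⟩ := gen_mod_ker Φ F hF hΦ
  obtain ⟨e, he, hep, hexp⟩ := exp_mod_ker hq' Φ F hF hΦ
  rw [hker] at hT0 hexp
  let D : Subgroup A := isol p (Subgroup.closure (↑T1 : Set A))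
  have hD : ∀ a, PrimeTo p D a := fun a => by
    obtain ⟨m, hm, ha⟩ := h1 a
    exact primeTo_of_pow hm ⟨0, by simpa using ha⟩ fun n j h => isol_root h
  obtain ⟨m0, hm0, hC⟩ := hch.three A D (Subgroup.closure {x | ∃ a g, x = bet c N e a g})
    (fun x _ => hD x) fun ψ => by
      obtain ⟨N', hN', h⟩ := horb ψ
      exact finite_image c N e ψ N' hN' h
  obtain ⟨i, m, hm1, hm2⟩ := Nat.exists_eq_pow_mul_and_not_dvd hm0.ne' p hp.out.ne_one
  have hm : 0 < m := Nat.pos_of_ne_zero fun e' => hm1 (by simp [e'])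
  have hmp : m.Coprime p := ((Nat.Prime.coprime_iff_not_dvd hp.out).2 hm1).symm
  have hCm : ∀ a g, bet c N e a g ^ m ∈ D := fun a g => by
    refine isol_root (i := i) ?_
    rw [← pow_mul, mul_comm, ← hm2]
    exact hC _ (Subgroup.subset_closure ⟨a, g, rfl⟩)
  have hn : 0 < e * m := Nat.mul_pos he hm
  have hnp : (e * m).Coprime p := Nat.Coprime.mul_left hep hmp
  have hkz : ∀ g ∈ N, ∀ z ∈ fixd c N, kap c g z = 1 := fun g hg z hz' =>
    (kap_eq_one c).2 (hz' g hg)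
  refine ⟨pz (e * m) (fixd c N), uni c N e, fun g hg => hg.1, fun g hg h => ⟨hg, fun a => ?_⟩,
    index_pz hn hnp _ T0 hT0, ?_, le_pz _ _, ?_, ⟨T0.image fun t => t ^ (e * m), ?_, ?_⟩, ?_, ?_⟩
  · rw [(kap_eq_one c).2 (h a), one_pow]; exact one_mem _
  · intro g hg b hb
    obtain ⟨a, z, hz', rfl⟩ := mem_pz.1 hb
    exact mem_pz.2 ⟨c g a, z, hz', by rw [map_mul, map_pow, hz' g hg]⟩
  · intro b hb k hk h
    obtain ⟨a, z, hz', rfl⟩ := mem_pz.1 hb
    rw [mul_pow, ← pow_mul] at h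
    have h2 : a ^ (e * m * k) ∈ fixd c N :=
      (Subgroup.mul_mem_cancel_right _ (pow_mem hz' k)).1 h
    have h3 := hexp a _ (Nat.mul_pos hn hk) h2
    rw [pow_mul]
    exact mul_mem (pow_mem h3 m) hz'
  · intro t ht
    obtain ⟨s, _, rfl⟩ := Finset.mem_image.1 ht
    exact pow_mem_pz _ _ _
  · intro b hb
    exact gen_pz hT0 hb
  · intro g hg
    constructor
    · intro h b hb
      obtain ⟨a, z, hz', rfl⟩ := mem_pz.1 hb
      rw [map_mul, hkz g hg z hz', mul_one, map_pow, pow_mul]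
      exact pow_mem (h.2 a) m
    · intro h
      refine ⟨hg, fun a => hexp _ _ hn ?_⟩
      rw [← map_pow]
      exact h _ (pow_mem_pz _ _ _)
  · intro H hH
    have hSD : Ser p ⊥ D := by
      refine hs.ab A ⊥ D T1 bot_le (fun x _ y _ => ?_) (fun x _ hx => hq x hx)
        (fun t ht => ⟨0, by simpa using Subgroup.subset_closure ht⟩) fun x hx => ?_
      · rw [Subgroup.mem_bot, mul_comm x y, mul_inv_cancel_right, mul_inv_cancel]
      · rw [sup_bot_eq]; exact hx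
    have hSt : ∀ t ∈ T0, Ser p (stab c (uni c N e) (t ^ (e * m))) (uni c N e) := fun t _ => by
      refine hs.hom G A _ _ ((powMonoidHom m).comp (bet c N e t)) D (fun g hg => hg.1)
        (fun x => ?_) (fun x => hCm t x) hSD
      change (kap c x t ^ e) ^ m = 1 ↔ _
      rw [← pow_mul, ← map_pow, kap_eq_one, mem_stab]
      exact ⟨fun h => ⟨x.2, h⟩, fun h => h.2⟩
    have h2 := hs.iInf G A T0 (fun t => stab c (uni c N e) (t ^ (e * m))) (uni c N e) hSt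
    have h3 : H = uni c N e ⊓ ⨅ t ∈ T0, stab c (uni c N e) (t ^ (e * m)) := by
      ext g
      rw [hH, Subgroup.mem_inf]
      simp only [Subgroup.mem_iInf, mem_stab]
      refine and_congr_right fun hg => ⟨fun h t _ => ⟨hg, h _ (pow_mem_pz _ _ _)⟩, fun h b hb => ?_⟩
      obtain ⟨j, hj⟩ := gen_pz hT0 hb
      have h4 : Subgroup.closure (↑(T0.image fun t => t ^ (e * m)) : Set A) ⊔ fixd c N ≤
          (kap c g).ker := by
        refine sup_le ((Subgroup.closure_le _).2 fun x hx => ?_) fun z hz' => hkz g hg.1 z hz'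
        obtain ⟨s, hs', rfl⟩ := Finset.mem_image.1 (Finset.mem_coe.1 hx)
        exact (kap_eq_one c).2 (h s hs').2
      have h5 : kap c g b ^ p ^ j = 1 := by rw [← map_pow]; exact h4 hj
      exact (kap_eq_one c).1 (pow_pow_eq_one hq h5)
    rw [h3]
    exact h2

end Act

theorem exists_lift {G : Type} [Group G] (B : Subgroup G) (T : Finset G) (hT : ∀ t ∈ T, t ∈ B) :
    ∃ T' : Finset B, ∀ b : B, (b : G) ∈ Subgroup.closure (↑T : Set G) →
      b ∈ Subgroup.closure (↑T' : Set B) := by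
  classical
  refine ⟨T.subtype (· ∈ B), fun b hb => ?_⟩
  have h1 : Subgroup.closure (↑T : Set G) ≤
      (Subgroup.closure (↑(T.subtype (· ∈ B)) : Set B)).map B.subtype := by
    rw [Subgroup.closure_le]
    intro t ht
    exact ⟨⟨t, hT t ht⟩, Subgroup.subset_closure (by simpa using ht), rfl⟩
  obtain ⟨x, hx, e⟩ := h1 hb
  have : x = b := Subtype.ext e
  exact this ▸ hx

theorem al1 : SCh → SSer → SAL0 → SAL1 := by
  intro hch hs h0 p _ G _ B hB hc hpt hrk horb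
  classical
  obtain ⟨N, T, hN, hBN, hT, hsm, hz⟩ := h0 p G B hB hc hpt hrk horb
  obtain ⟨T1, hT1, h1⟩ := hrk
  obtain ⟨T1', hT1'⟩ := exists_lift B T1 hT1
  let _ := hc.commGroup
  let c : G →* MulAut B := MulAut.conjNormal
  have hca : ∀ (g : G) (b : B), ((c g b : B) : G) = g * b * g⁻¹ := fun g b =>
    MulAut.conjNormal_apply g b
  have hka : ∀ (g : G) (b : B), ((kap c g b : B) : G) = g * b * g⁻¹ * (b : G)⁻¹ := fun g b => by
    rw [← hca]; rfl
  have hfx : ∀ (g : G) (b : B), c g b = b ↔ g * b = b * g := fun g b => by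
    rw [Subtype.ext_iff, hca, mul_inv_eq_iff_eq_mul]
  obtain ⟨A₀, U, k1, k2, k3, k4, k5, k6, ⟨T', k7, k8⟩, k9, k10⟩ := core c (hch p (Kp p)) (hs p) N T hT
    (fun a ha => Subtype.ext (hpt a a.2 (congrArg Subtype.val ha))) T1'
    (fun a => by
      obtain ⟨m, hm, ha⟩ := h1 a a.2
      exact ⟨m, hm, hT1' (a ^ m) ha⟩)
    (fun t ht => by
      obtain ⟨S, hS, hS'⟩ := hsm t (hT t ht)
      obtain ⟨S', hS''⟩ := exists_lift B S hS
      refine ⟨S', fun a => ?_⟩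
      obtain ⟨j, hj⟩ := hS' (t * a * t⁻¹ * (a : G)⁻¹) (Subgroup.subset_closure ⟨a, a.2, rfl⟩)
      exact ⟨j, hS'' (kap c t a ^ p ^ j) (by rw [← hka] at hj; exact hj)⟩)
    (fun a h g hg => (hfx g a).2 (hz a a.2 (fun t ht => (hfx t a).1 (h t ht)) g hg))
    (fun ψ => by
      obtain ⟨ψ', h2, h3⟩ := exists_isCh (B := B) ψ
      obtain ⟨N', hN', h4⟩ := horb ψ' h2
      refine ⟨N', hN', fun g hg a => Units.ext ?_⟩
      rw [← h3, ← h3, hca]
      exact h4 g hg a a.2)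
  have hmem : ∀ (X : Subgroup B) (b : B), (b : G) ∈ X.map B.subtype ↔ b ∈ X := fun X b =>
    ⟨fun ⟨x, hx, e⟩ => (Subtype.ext e : x = b) ▸ hx, fun h => ⟨b, h, rfl⟩⟩
  refine ⟨N, A₀.map B.subtype, (fixd c N).map B.subtype, U, hN, fun b hb => ?_, k1,
    Subgroup.map_subtype_le _, ?_, ?_, Subgroup.map_mono k5, ?_, ?_,
    ⟨T'.image B.subtype, ?_, ?_⟩, ?_, k10 _ fun g => ?_⟩
  · exact k2 b (hBN hb) fun a => (hfx b a).2 (hc b hb a a.2)
  · have e : (A₀.map B.subtype).subgroupOf B = A₀ := by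
      ext b
      exact hmem A₀ b
    rw [Subgroup.relIndex, e]
    exact k3
  · rintro g hg _ ⟨a, ha, rfl⟩
    exact ⟨c g a, k4 g hg a ha, hca g a⟩
  · rintro _ ⟨z, hz', rfl⟩ g hg
    exact ((hfx g z).1 (hz' g hg)).symm
  · rintro _ ⟨a, ha, rfl⟩ m hm h
    exact ⟨a, k6 a ha m hm ((hmem _ (a ^ m)).1 h), rfl⟩
  · intro t ht
    obtain ⟨s, hs', rfl⟩ := Finset.mem_image.1 ht
    exact ⟨s, k7 s hs', rfl⟩
  · rintro _ ⟨a, ha, rfl⟩
    obtain ⟨j, hj⟩ := k8 a ha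
    refine ⟨j, ?_⟩
    rw [Finset.coe_image, ← MonoidHom.map_closure, ← Subgroup.map_sup]
    exact ⟨a ^ p ^ j, hj, rfl⟩
  · intro g hg
    rw [k9 g hg]
    constructor
    · rintro h _ ⟨a, ha, rfl⟩
      exact ⟨kap c g a, h a ha, hka g a⟩
    · intro h a ha
      refine (hmem _ _).1 ?_
      rw [hka]
      exact h a ⟨a, ha, rfl⟩
  · rw [Subgroup.mem_inf, Subgroup.mem_centralizer_iff]
    refine and_congr_right fun _ => ⟨fun h a ha => (hfx g a).2 (h a ⟨a, ha, rfl⟩).symm, ?_⟩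
    rintro h _ ⟨a, ha, rfl⟩
    exact ((hfx g a).1 (h a ha)).symm

end Pool.Agent.MP_6a4325_al.H79
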