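import Pool.Agent.MP_6a4325_al.H84.Spec3

/-! Abelian by `p`-groups. -/

set_option autoImplicit false

namespace Pool.Agent.MP_6a4325_al.H79

open Pool.Agent.MP_6a4325_al.H62 Pool.Agent.MP_6a4325_al.H84

namespace Ext0

variable {p : ℕ} [hp : Fact p.Prime] {G : Type} [Group G]

theorem rel (hV : VsApi) (hL : LP G) {A : Subgroup G} (hA : A.Normal)
    (h : ∀ g : G, ∃ j : ℕ, g ^ p ^ j ∈ A) (H : Subgroup G) (hH : H.FG) : A.relIndex H ≠ 0 := by
  have : Finite (H ⧸ A.subgroupOf H) := by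
    refine hV.nTor _ (hV.nSurj _ _ (QuotientGroup.mk' _) (QuotientGroup.mk'_surjective _)
      (hL H hH)) fun q => ?_
    obtain ⟨g, rfl⟩ := QuotientGroup.mk'_surjective _ q
    obtain ⟨j, hj⟩ := h g
    refine isOfFinOrder_iff_pow_eq_one.2 ⟨p ^ j, pow_pos hp.out.pos _, ?_⟩
    rw [← map_pow, QuotientGroup.mk'_apply, QuotientGroup.eq_one_iff]
    exact hj
  exact Subgroup.index_ne_zero_of_finite

open scoped IsMulCommutative in
theorem pc0 (hf : (Subgroup.center G).FiniteIndex)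
    (h : ∀ g : G, ∃ j : ℕ, g ^ p ^ j ∈ Subgroup.center G) {x : G} (hx : x ∈ commutator G) :
    ∃ k : ℕ, x ^ p ^ k = 1 := by
  have h1 : IsPGroup p (G ⧸ Subgroup.center G) := fun q => by
    obtain ⟨g, rfl⟩ := QuotientGroup.mk'_surjective _ q
    obtain ⟨j, hj⟩ := h g
    exact ⟨j, by rwa [← map_pow, QuotientGroup.mk'_apply, QuotientGroup.eq_one_iff]⟩
  obtain ⟨k, hk⟩ := IsPGroup.iff_card.1 h1
  have h2 := Abelianization.commutator_subset_ker (MonoidHom.transferCenterPow G) hx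
  have h3 := congrArg Subtype.val (MonoidHom.mem_ker.1 h2)
  rw [MonoidHom.transferCenterPow_apply, Subgroup.index_eq_card, hk] at h3
  exact ⟨k, h3⟩

theorem pc (hV : VsApi) (hL : LP G) {A : Subgroup G} (hA : A ≤ Subgroup.center G)
    (h : ∀ g : G, ∃ j : ℕ, g ^ p ^ j ∈ A) : IsPGroup p (commutator G) := by
  rintro ⟨x, hx⟩
  obtain ⟨T, hT⟩ := exists_finset_commutator hx
  rw [← Subgroup.map_subtype_commutator] at hT
  obtain ⟨y, hy, rfl⟩ := hT
  have hN : A.Normal := ⟨fun a ha g => by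
    rwa [Subgroup.mem_center_iff.1 (hA ha) g, mul_inv_cancel_right]⟩
  have h1 : A.subgroupOf (Subgroup.closure (↑T : Set G)) ≤ Subgroup.center _ := fun a ha =>
    Subgroup.mem_center_iff.2 fun g => Subtype.ext (Subgroup.mem_center_iff.1 (hA ha) g)
  have h2 : (A.subgroupOf (Subgroup.closure (↑T : Set G))).FiniteIndex :=
    ⟨rel hV hL hN h _ ⟨T, rfl⟩⟩
  obtain ⟨k, hk⟩ := pc0 (p := p) (Subgroup.finiteIndex_of_le h1)
    (fun g => (h g).imp fun j hj => h1 hj) hy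
  exact ⟨k, Subtype.ext (by simpa using congrArg Subtype.val hk)⟩

/-- the torsion subgroup of an abelian subgroup -/
def tor {A : Subgroup G} (h : Cm A A) : Subgroup G where
  carrier := {x | x ∈ A ∧ IsOfFinOrder x}
  mul_mem' := fun {a b} ha hb =>
    ⟨A.mul_mem ha.1 hb.1, Commute.isOfFinOrder_mul (h a ha.1 b hb.1) ha.2 hb.2⟩
  one_mem' := ⟨A.one_mem, IsOfFinOrder.one⟩
  inv_mem' := fun ha => ⟨A.inv_mem ha.1, ha.2.inv⟩

theorem g1 (hV : VsApi) (hG : SGenC) (hM : SMinB) (hL : LP G) (hW : W (ZMod p) G)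
    {A : Subgroup G} (hA : A.Normal) (hc : Cm A A) (h : ∀ g : G, ∃ j : ℕ, g ^ p ^ j ∈ A) :
    ∃ G₁ : Subgroup G, G₁.FiniteIndex ∧ ∀ g ∈ G₁, ∀ b ∈ A, IsOfFinOrder (g * b * g⁻¹ * b⁻¹) := by
  have hT : (tor hc).Normal := ⟨fun x hx g => ⟨hA.conj_mem x hx.1 g,
    (MulAut.conj g).toMonoidHom.isOfFinOrder hx.2⟩⟩
  let f := QuotientGroup.mk' (tor hc)
  have hf : Function.Surjective f := QuotientGroup.mk'_surjective _
  have hk : ∀ x, f x = 1 → IsOfFinOrder x := fun x hx =>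
    ((QuotientGroup.eq_one_iff x).1 hx).2
  have hB : (A.map f).Normal := hA.map f hf
  have hBc : Cm (A.map f) (A.map f) := by
    rintro _ ⟨a, ha, rfl⟩ _ ⟨b, hb, rfl⟩
    rw [← map_mul, ← map_mul, hc a ha b hb]
  have hBt : Tf (A.map f) := by
    rintro _ ⟨a, ha, rfl⟩ ho
    obtain ⟨m, hm, e⟩ := isOfFinOrder_iff_pow_eq_one.1 ho
    rw [← map_pow] at e
    exact (QuotientGroup.eq_one_iff a).2 ⟨ha, (hk _ e).of_pow hm.ne'⟩
  have hBp : ∀ q, ∃ j : ℕ, q ^ p ^ j ∈ A.map f := fun q => by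
    obtain ⟨g, rfl⟩ := hf q
    exact (h g).imp fun j hj => ⟨_, hj, map_pow f g _⟩
  have hC : (Subgroup.centralizer (A.map f : Set (G ⧸ tor hc))).FiniteIndex := by
    by_cases hr : FinRk (A.map f)
    · exact hM p _ _ hB hBc hBt hr (rel hV (hV.lSurj _ _ f hf hL) hB hBp) hBp
    · exact hG p _ (hW.of_surj f hf) _ hB hBc hBt hr
  refine ⟨_, finiteIndex_comap _ hC f, fun g hg b hb => hk _ ?_⟩
  have := Subgroup.mem_centralizer_iff.1 hg (f b) ⟨b, hb, rfl⟩
  rw [map_mul, map_mul, map_mul, ← this, map_inv, map_inv]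
  simp

theorem pow_conj {g a c : G} (h : g * a * g⁻¹ = c * a) (hc : c * g = g * c) (n : ℕ) :
    g ^ n * a = c ^ n * a * g ^ n := by
  have h' : g * a = c * a * g := by rw [← h, inv_mul_cancel_right]
  induction n with
  | zero => simp
  | succ n ih =>
    have hn : g * c ^ n = c ^ n * g := ((show Commute c g from hc).pow_left n).symm
    rw [pow_succ' g, mul_assoc, ih, ← mul_assoc, ← mul_assoc, hn, mul_assoc (c ^ n), h', pow_succ c]
    simp only [mul_assoc]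

theorem core (hV : VsApi) (hCL : SCLt) (hAL : SALT) (hG : SGenC) (hM : SMinB)
    (hL : LP G) (hW : W (ZMod p) G) (hN : NoP p G) {A : Subgroup G} (hA : A.Normal)
    (hc : Cm A A) (h : ∀ g : G, ∃ j : ℕ, g ^ p ^ j ∈ A) : PVS p G := by
  have hT := hN.noPT hA hc
  obtain ⟨G₁, h1, h2⟩ := g1 hV hG hM hL hW hA hc h
  obtain ⟨N, B₀, hNf, hB, hBr, hBc⟩ := hAL p G A G₁ hA hc (hCL p G hW A hA hc) h1
    fun g hg b hb => hT.primeTo (A.mul_mem (hA.conj_mem b hb g) (A.inv_mem hb)) (h2 g hg b hb)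
  have hle : B₀ ≤ A ⊓ Subgroup.centralizer (N.normalCore : Set G) := fun b hb =>
    ⟨hB hb, fun g hg => (hBc b hb g (N.normalCore_le hg)).symm⟩
  obtain ⟨C₀, -, hC₀, hC⟩ := hV.cen G (A ⊓ Subgroup.centralizer (N.normalCore : Set G)) A
    inferInstance hA fun e => hBr (Subgroup.relIndex_eq_zero_of_le_left hle e)
  have h3 : C₀ ⊓ N.normalCore ≤ Subgroup.centralizer (A : Set G) := by
    rintro g ⟨hg, hg'⟩ a ha
    obtain ⟨hcA, hcc⟩ := hC g hg a ha
    obtain ⟨j, hj⟩ := h g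
    have h4 := pow_conj (g := g) (a := a) (c := g * a * g⁻¹ * a⁻¹) (by simp)
      (hcc g hg').symm (p ^ j)
    rw [hc _ hj a ha, mul_left_inj, eq_comm, mul_eq_right] at h4
    have h5 := hT.pow_pow hcA j h4
    rw [mul_inv_eq_one, mul_inv_eq_iff_eq_mul] at h5
    exact h5.symm
  have h6 : (Subgroup.centralizer (A : Set G)).FiniteIndex := Subgroup.finiteIndex_of_le h3
  refine ⟨_, 1, h6, pc hV (hV.lInj _ _ _ (Subgroup.subtype_injective _) hL)
    (A := A.subgroupOf _) (fun a ha => Subgroup.mem_center_iff.2 fun g =>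
      Subtype.ext (g.2 a ha).symm) fun g => h g⟩

end Ext0

theorem ext0 : VsApi → SPv → SOp → SCLt → SALT → SGenC → SMinB → SExt0 := by
  intro hV hP hO hCL hAL hG hM p _ G _ A hL hW hA hc h
  obtain ⟨S, _, hS, hN⟩ := hO p G
  have hf := QuotientGroup.mk'_surjective S
  refine (hP p).quot G _ (QuotientGroup.mk' S) hf (by rwa [QuotientGroup.ker_mk']) ?_
  refine Ext0.core hV hCL hAL hG hM (hV.lSurj _ _ _ hf hL) (hW.of_surj _ hf) hN
    (hA.map _ hf) ?_ fun q => ?_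
  · rintro _ ⟨a, ha, rfl⟩ _ ⟨b, hb, rfl⟩
    rw [← map_mul, ← map_mul, hc a ha b hb]
  · obtain ⟨g, rfl⟩ := hf q
    exact (h g).imp fun j hj => ⟨_, hj, map_pow _ g _⟩

end Pool.Agent.MP_6a4325_al.H79
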